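import Mathlib

set_option autoImplicit false

/-!
# The differences of the workloads in the GI/GI/k queue need not be associated

For every number `k ≥ 2` of servers we give a stable GI/GI/k queue for which, in the stationary
regime, the family `{V₁, V₂ - V₁, …, V_k - V₁, -T}` is not associated.

The example: all service times are `1`, the interarrival times are `1/k` or `2` with probability
`1/2` each. In the stationary regime the workload vector takes `k` values `w₀, …, w_{k-1}`, and
`V₁ ≥ 1/k` holds exactly in the last state, where `V_k - V₁ = 1 - 1/k < 1`, while `V₁ = 0` and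
`V_k - V₁ = 1` in all other states.
-/

open MeasureTheory ProbabilityTheory
open scoped ENNReal

namespace Pool.Agent.Results.MP_d464c7_pr.NotAssociated

/-- The increasing rearrangement of a vector. -/
noncomputable def increasing {k : ℕ} (v : Fin k → ℝ) : Fin k → ℝ := v ∘ Tuple.sort v

/-- `V = R(W₁ + S, W₂, …, W_k)`: the ordered workloads just after the arrival of a customer with
service time `s` who sees the ordered workloads `w`. -/
noncomputable def afterArrival {k : ℕ} (w : Fin k → ℝ) (s : ℝ) : Fin k → ℝ :=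
  increasing (fun i => w i + if (i : ℕ) = 0 then s else 0)

/-- The workload vector seen by the next customer, who arrives `t` time units later:
`W'_i = (V_i - t)₊`. -/
noncomputable def nextLoad {k : ℕ} (w : Fin k → ℝ) (s t : ℝ) : Fin k → ℝ :=
  fun i => max (afterArrival w s i - t) 0

/-- The law of the workload vector seen by the next customer, if the present workload vector has
law `π` and is independent of the service time (law `μS`) and of the interarrival time (law `μT`),
which are independent. -/
noncomputable def stepLaw {k : ℕ} (μS μT : Measure ℝ) (π : Measure (Fin k → ℝ)) :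
    Measure (Fin k → ℝ) :=
  (π.prod (μS.prod μT)).map (fun p => nextLoad p.1 p.2.1 p.2.2)

/-- The law of the workload vector `W_(n)` seen by customer `n` in the initially empty system. -/
noncomputable def emptyLaw (k : ℕ) (μS μT : Measure ℝ) (n : ℕ) : Measure (Fin k → ℝ) :=
  (stepLaw μS μT)^[n] (Measure.dirac 0)

/-- Association of a finite family of random variables `X = (X_i)`: `f(X)` and `g(X)` have
nonnegative covariance for all bounded (measurable) functions `f`, `g` which are nondecreasing in
each coordinate. -/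
def Associated {Ω ι : Type*} [MeasurableSpace Ω] (P : Measure Ω) (X : Ω → ι → ℝ) : Prop :=
  ∀ f g : (ι → ℝ) → ℝ, Measurable f → Measurable g → Monotone f → Monotone g →
    (∃ C, ∀ x, |f x| ≤ C) → (∃ C, ∀ x, |g x| ≤ C) →
      0 ≤ cov[fun ω => f (X ω), fun ω => g (X ω); P]

/-- The family `V₁, V₂ - V₁, …, V_k - V₁, -T` (here `k = m + 1`): the coordinate `none` is `-T`, the
coordinate `some 0` is `V₁` and the coordinates `some i`, `i ≠ 0`, are the differences. -/
noncomputable def family {m : ℕ} (v : Fin (m + 1) → ℝ) (t : ℝ) : Option (Fin (m + 1)) → ℝ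
  | none => -t
  | some i => if i = 0 then v 0 else v i - v 0

/-! ### Measurability -/

lemma increasing_mono {k : ℕ} (v : Fin k → ℝ) : Monotone (increasing v) :=
  Tuple.monotone_sort v

lemma card_increasing {k : ℕ} (v : Fin k → ℝ) (p : ℝ → Prop) [DecidablePred p] :
    (Finset.univ.filter (fun i => p (increasing v i))).card =
      (Finset.univ.filter (fun i => p (v i))).card := by
  apply Finset.card_bij (fun i _ => Tuple.sort v i)
  · intro i hi
    rw [Finset.mem_filter] at hi ⊢
    exact ⟨Finset.mem_univ _, hi.2⟩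
  · intro a _ b _ h
    exact (Tuple.sort v).injective h
  · intro b hb
    refine ⟨(Tuple.sort v).symm b, ?_, by simp⟩
    rw [Finset.mem_filter] at hb ⊢
    refine ⟨Finset.mem_univ _, ?_⟩
    unfold increasing
    simpa using hb.2

lemma increasing_le_iff {k : ℕ} (v : Fin k → ℝ) (j : Fin k) (a : ℝ) :
    increasing v j ≤ a ↔ (j : ℕ) < (Finset.univ.filter (fun i => v i ≤ a)).card := by
  rw [← card_increasing v (fun x => x ≤ a)]
  exact (Tuple.lt_card_le_iff_apply_le_of_monotone (increasing_mono v)).symm

lemma measurable_count {k : ℕ} (a : ℝ) :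
    Measurable (fun v : Fin k → ℝ => (Finset.univ.filter (fun i => v i ≤ a)).card) := by
  simp_rw [Finset.card_filter]
  apply Finset.measurable_sum
  intro i _
  apply Measurable.ite _ measurable_const measurable_const
  exact measurableSet_le (measurable_pi_apply i) measurable_const

lemma measurable_increasing {k : ℕ} : Measurable (increasing : (Fin k → ℝ) → (Fin k → ℝ)) := by
  rw [measurable_pi_iff]
  intro j
  apply measurable_of_Iic
  intro a
  have : (fun v : Fin k → ℝ => increasing v j) ⁻¹' Set.Iic a =
      (fun v : Fin k → ℝ => (Finset.univ.filter (fun i => v i ≤ a)).card) ⁻¹' Set.Ioi (j : ℕ) := by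
    ext v
    simp only [Set.mem_preimage, Set.mem_Iic, Set.mem_Ioi]
    exact increasing_le_iff v j a
  rw [this]
  exact measurable_count a measurableSet_Ioi

lemma measurable_afterArrival {k : ℕ} :
    Measurable (fun p : (Fin k → ℝ) × ℝ => afterArrival p.1 p.2) := by
  unfold afterArrival
  apply measurable_increasing.comp
  rw [measurable_pi_iff]
  intro i
  apply Measurable.add ((measurable_pi_apply i).comp measurable_fst)
  split_ifs
  · exact measurable_snd
  · exact measurable_const

lemma measurable_nextLoad {k : ℕ} :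
    Measurable (fun p : (Fin k → ℝ) × ℝ × ℝ => nextLoad p.1 p.2.1 p.2.2) := by
  unfold nextLoad
  rw [measurable_pi_iff]
  intro i
  apply Measurable.max _ measurable_const
  apply Measurable.sub _ (measurable_snd.comp measurable_snd)
  exact (measurable_pi_apply i).comp
    (measurable_afterArrival.comp (measurable_fst.prodMk (measurable_fst.comp measurable_snd)))

/-! ### The example -/

/-- the states -/
noncomputable def st (m j : ℕ) : Fin (m + 1) → ℝ :=
  fun i => if m + 1 ≤ (i : ℕ) + j then (i : ℝ) / (m + 1) else 0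

/-- the service law -/
noncomputable def lawS : Measure ℝ := Measure.dirac 1

/-- the interarrival law -/
noncomputable def lawT (m : ℕ) : Measure ℝ :=
  (2⁻¹ : ℝ≥0∞) • Measure.dirac (1 / ((m : ℝ) + 1)) + (2⁻¹ : ℝ≥0∞) • Measure.dirac 2

instance : IsProbabilityMeasure lawS := by unfold lawS; infer_instance

instance (m : ℕ) : IsProbabilityMeasure (lawT m) := by
  refine ⟨?_⟩
  unfold lawT
  simp [ENNReal.inv_two_add_inv_two]

lemma after_st (m j : ℕ) :
    afterArrival (st m j) 1 =
      fun i : Fin (m + 1) => if m + 1 ≤ (i : ℕ) + 1 + j then ((i : ℝ) + 1) / (m + 1) else 0 := by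
  set u : Fin (m + 1) → ℝ := fun i => st m j i + if (i : ℕ) = 0 then 1 else 0 with hu
  set V : Fin (m + 1) → ℝ :=
    fun i : Fin (m + 1) => if m + 1 ≤ (i : ℕ) + 1 + j then ((i : ℝ) + 1) / (m + 1) else 0 with hV
  have hm : (0 : ℝ) < (m : ℝ) + 1 := by positivity
  have hcomp : u ∘ (finRotate (m + 1)) = V := by
    funext i
    simp only [Function.comp_apply]
    rcases Nat.lt_or_ge (i : ℕ) m with h | h
    · have e : ((finRotate (m + 1) i : Fin (m + 1)) : ℕ) = (i : ℕ) + 1 := by
        rw [finRotate_apply]
        rw [Fin.val_add_one_of_lt]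
        exact Fin.lt_def.2 (by simpa using h)
      simp only [hu, hV, st, e]
      push_cast
      simp
    · have hi : i = Fin.last m := by
        apply Fin.ext
        simp only [Fin.val_last]
        omega
      subst hi
      have e : finRotate (m + 1) (Fin.last m) = 0 := by
        rw [finRotate_apply]; simp
      rw [e]
      simp only [hu, hV, st]
      simp only [Fin.val_zero, Fin.val_last]
      rw [if_pos (show m + 1 ≤ m + 1 + j by omega)]
      rw [div_self hm.ne']
      simp
  have hmono : Monotone V := by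
    intro a b hab
    have hab' : (a : ℕ) ≤ (b : ℕ) := hab
    simp only [hV]
    by_cases h1 : m + 1 ≤ (a : ℕ) + 1 + j
    · rw [if_pos h1, if_pos (by omega)]
      have : (a : ℝ) ≤ (b : ℝ) := by exact_mod_cast hab'
      gcongr
    · rw [if_neg h1]
      split_ifs
      · positivity
      · exact le_rfl
  have := (Tuple.comp_sort_eq_comp_iff_monotone (f := u) (σ := finRotate (m + 1))).2
    (by rw [hcomp]; exact hmono)
  unfold afterArrival increasing
  change u ∘ Tuple.sort u = V
  rw [← hcomp, this]

lemma next_short (m j : ℕ) : nextLoad (st m j) 1 (1 / ((m : ℝ) + 1)) = st m (j + 1) := by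
  have hm : (0 : ℝ) < (m : ℝ) + 1 := by positivity
  funext i
  unfold nextLoad
  rw [after_st]
  simp only [st]
  by_cases h : m + 1 ≤ (i : ℕ) + 1 + j
  · rw [if_pos h, if_pos (by omega)]
    rw [← sub_div, add_sub_cancel_right]
    exact max_eq_left (by positivity)
  · rw [if_neg h, if_neg (by omega)]
    apply max_eq_right
    have : 0 < 1 / ((m : ℝ) + 1) := by positivity
    linarith

lemma next_long (m j : ℕ) : nextLoad (st m j) 1 2 = st m 0 := by
  have hm : (0 : ℝ) < (m : ℝ) + 1 := by positivity
  funext i
  unfold nextLoad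
  rw [after_st]
  simp only [st]
  have hi : ¬ (m + 1 ≤ (i : ℕ) + 0) := by have := i.2; omega
  rw [if_neg hi]
  apply max_eq_right
  split_ifs
  · have : ((i : ℝ) + 1) / (m + 1) ≤ 1 := by
      rw [div_le_one hm]
      have : ((i : ℕ) : ℝ) ≤ m := by exact_mod_cast (Nat.lt_succ_iff.1 i.2)
      linarith
    linarith
  · norm_num

lemma st_eventually (m j : ℕ) (h : m ≤ j) : st m j = st m m := by
  funext i
  simp only [st]
  rcases Nat.eq_zero_or_pos (i : ℕ) with h0 | h0
  · rw [h0]; simp
  · rw [if_pos (by omega), if_pos (by omega)]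

lemma stepLaw_eq (m : ℕ) (π : Measure (Fin (m + 1) → ℝ)) [SFinite π] :
    stepLaw lawS (lawT m) π =
      (2⁻¹ : ℝ≥0∞) • π.map (fun w => nextLoad w 1 (1 / ((m : ℝ) + 1))) +
        (2⁻¹ : ℝ≥0∞) • π.map (fun w => nextLoad w 1 2) := by
  have h1 : lawS.prod (lawT m) =
      (2⁻¹ : ℝ≥0∞) • Measure.dirac ((1 : ℝ), 1 / ((m : ℝ) + 1)) +
        (2⁻¹ : ℝ≥0∞) • Measure.dirac ((1 : ℝ), (2 : ℝ)) := by
    unfold lawS lawT
    rw [Measure.prod_add, Measure.prod_smul_right, Measure.prod_smul_right,
      Measure.dirac_prod_dirac, Measure.dirac_prod_dirac]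
  unfold stepLaw
  rw [h1, Measure.prod_add, Measure.prod_smul_right, Measure.prod_smul_right,
    Measure.map_add _ _ measurable_nextLoad, Measure.map_smul, Measure.map_smul,
    Measure.prod_dirac, Measure.prod_dirac,
    Measure.map_map measurable_nextLoad (by fun_prop), Measure.map_map measurable_nextLoad (by fun_prop)]
  rfl

lemma measurable_nextLoad' {k : ℕ} (s t : ℝ) : Measurable (fun w : Fin k → ℝ => nextLoad w s t) := by
  have h : Measurable (fun w : Fin k → ℝ => (w, s, t)) := by fun_prop
  exact measurable_nextLoad.comp h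

lemma half_add_half (n : ℕ) : (2⁻¹ : ℝ≥0∞) ^ (n + 1) + (2⁻¹ : ℝ≥0∞) ^ (n + 1) = (2⁻¹ : ℝ≥0∞) ^ n := by
  rw [pow_succ, ← mul_add, ENNReal.inv_two_add_inv_two, mul_one]

lemma total_half (n : ℕ) :
    (2⁻¹ : ℝ≥0∞) ^ n + ∑ j ∈ Finset.range n, (2⁻¹ : ℝ≥0∞) ^ (j + 1) = 1 := by
  induction n with
  | zero => simp
  | succ n ih =>
    rw [Finset.sum_range_succ, ← ih, add_comm (∑ j ∈ Finset.range n, (2⁻¹ : ℝ≥0∞) ^ (j + 1)),
      ← add_assoc, half_add_half]

lemma emptyLaw_eq (m n : ℕ) :
    emptyLaw (m + 1) lawS (lawT m) n =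
      (2⁻¹ : ℝ≥0∞) ^ n • Measure.dirac (st m n) +
        ∑ j ∈ Finset.range n, (2⁻¹ : ℝ≥0∞) ^ (j + 1) • Measure.dirac (st m j) := by
  induction n with
  | zero =>
    simp only [emptyLaw, Function.iterate_zero, id_eq, pow_zero, one_smul, Finset.range_zero,
      Finset.sum_empty, add_zero]
    congr 1
    funext i
    simp only [Pi.zero_apply, st]
    rw [if_neg]
    have := i.2; omega
  | succ n ih =>
    have h0 : emptyLaw (m + 1) lawS (lawT m) (n + 1) =
        stepLaw lawS (lawT m) (emptyLaw (m + 1) lawS (lawT m) n) := by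
      unfold emptyLaw
      rw [Function.iterate_succ_apply']
    rw [h0, ih]
    have hfin : IsFiniteMeasure ((2⁻¹ : ℝ≥0∞) ^ n • Measure.dirac (st m n) +
        ∑ j ∈ Finset.range n, (2⁻¹ : ℝ≥0∞) ^ (j + 1) • Measure.dirac (st m j)) := by
      refine ⟨?_⟩
      simp only [Measure.coe_add, Measure.coe_smul, Pi.add_apply, Pi.smul_apply, measure_univ,
        smul_eq_mul, mul_one, Measure.coe_finsetSum, Finset.sum_apply]
      refine ENNReal.add_lt_top.2 ⟨?_, ?_⟩
      · exact ENNReal.pow_lt_top (by simp)
      · refine (ENNReal.sum_lt_top).2 fun j _ => ENNReal.pow_lt_top (by simp)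
    have key : ∀ (f : (Fin (m + 1) → ℝ) → (Fin (m + 1) → ℝ)), Measurable f →
        ((2⁻¹ : ℝ≥0∞) ^ n • Measure.dirac (st m n) +
          ∑ j ∈ Finset.range n, (2⁻¹ : ℝ≥0∞) ^ (j + 1) • Measure.dirac (st m j)).map f =
        (2⁻¹ : ℝ≥0∞) ^ n • Measure.dirac (f (st m n)) +
          ∑ j ∈ Finset.range n, (2⁻¹ : ℝ≥0∞) ^ (j + 1) • Measure.dirac (f (st m j)) := by
      intro f hf
      rw [Measure.map_add _ _ hf, Measure.map_smul, Measure.map_dirac' hf]
      congr 1
      rw [Measure.map_finset_sum (by fun_prop)]
      refine Finset.sum_congr rfl fun j _ => ?_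
      rw [Measure.map_smul, Measure.map_dirac' hf]
    rw [stepLaw_eq, key _ (measurable_nextLoad' _ _), key _ (measurable_nextLoad' _ _)]
    simp only [next_short, next_long]
    rw [← Finset.sum_smul, ← add_smul, total_half, one_smul, Finset.sum_range_succ' _ n, smul_add,
      smul_smul, ← pow_succ', Finset.smul_sum]
    simp only [smul_smul, zero_add, pow_one, ← pow_succ']
    rw [add_assoc]

/-- the stationary law -/
noncomputable def statLaw (m : ℕ) : Measure (Fin (m + 1) → ℝ) :=
  (2⁻¹ : ℝ≥0∞) ^ m • Measure.dirac (st m m) +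
        ∑ j ∈ Finset.range m, (2⁻¹ : ℝ≥0∞) ^ (j + 1) • Measure.dirac (st m j)

lemma emptyLaw_stable (m n : ℕ) (h : m ≤ n) :
    emptyLaw (m + 1) lawS (lawT m) n = statLaw m := by
  induction n, h using Nat.le_induction with
  | base => exact emptyLaw_eq m m
  | succ n h ih =>
    rw [← ih, emptyLaw_eq, emptyLaw_eq, Finset.sum_range_succ, st_eventually m (n + 1) (by omega),
      st_eventually m n h, add_left_comm, ← add_smul, half_add_half]
    exact add_comm _ _

lemma statLaw_prob (m : ℕ) : IsProbabilityMeasure (statLaw m) := by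
  refine ⟨?_⟩
  unfold statLaw
  simp only [Measure.coe_add, Measure.coe_smul, Pi.add_apply, Pi.smul_apply, measure_univ,
        smul_eq_mul, mul_one, Measure.coe_finsetSum, Finset.sum_apply]
  exact total_half m

lemma statLaw_inv (m : ℕ) : stepLaw lawS (lawT m) (statLaw m) = statLaw m := by
  have h1 : emptyLaw (m + 1) lawS (lawT m) (m + 1) =
        stepLaw lawS (lawT m) (emptyLaw (m + 1) lawS (lawT m) m) := by
      unfold emptyLaw
      rw [Function.iterate_succ_apply']
  rw [emptyLaw_stable m (m + 1) (by omega), emptyLaw_stable m m le_rfl] at h1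
  exact h1.symm

lemma ae_statLaw (m : ℕ) : ∀ᵐ w ∂(statLaw m), ∃ j, w = st m j := by
  have hms : MeasurableSet {w : Fin (m + 1) → ℝ | ∃ j, w = st m j} := by
    have : {w : Fin (m + 1) → ℝ | ∃ j, w = st m j} = Set.range (st m) := by
      ext w; simp [eq_comm]
    rw [this]
    exact (Set.countable_range _).measurableSet
  rw [ae_iff]
  unfold statLaw
  simp only [Measure.coe_add, Measure.coe_smul, Pi.add_apply, Pi.smul_apply,
        smul_eq_mul, Measure.coe_finsetSum, Finset.sum_apply]
  have hc : MeasurableSet {w : Fin (m + 1) → ℝ | ¬ ∃ j, w = st m j} := hms.compl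
  have h0 : ∀ j, Measure.dirac (st m j) {w : Fin (m + 1) → ℝ | ¬ ∃ j, w = st m j} = 0 := by
    intro j
    rw [Measure.dirac_apply' _ hc, Set.indicator_of_notMem]
    simp
  simp [h0]

lemma statLaw_single (m j : ℕ) (hj : j < m) : 0 < statLaw m {st m j} := by
  unfold statLaw
  simp only [Measure.coe_add, Measure.coe_smul, Pi.add_apply, Pi.smul_apply,
        smul_eq_mul, Measure.coe_finsetSum, Finset.sum_apply]
  refine lt_of_lt_of_le ?_ le_add_self
  refine lt_of_lt_of_le ?_ (Finset.single_le_sum (fun i _ => zero_le) (Finset.mem_range.2 hj))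
  rw [Measure.dirac_apply' _ (measurableSet_singleton _), Set.indicator_of_mem (by simp)]
  simp only [Pi.one_apply, mul_one]
  exact ENNReal.pow_pos (by simp) _

lemma statLaw_last (m : ℕ) : 0 < statLaw m {st m m} := by
  unfold statLaw
  simp only [Measure.coe_add, Measure.coe_smul, Pi.add_apply, Pi.smul_apply,
        smul_eq_mul, Measure.coe_finsetSum, Finset.sum_apply]
  refine lt_of_lt_of_le ?_ le_self_add
  rw [Measure.dirac_apply' _ (measurableSet_singleton _), Set.indicator_of_mem (by simp)]
  simp only [Pi.one_apply, mul_one]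
  exact ENNReal.pow_pos (by simp) _

/-- test functions -/
noncomputable def tf (m : ℕ) : (Option (Fin (m + 1)) → ℝ) → ℝ :=
  fun x => if 1 / ((m : ℝ) + 1) ≤ x (some 0) then 1 else 0

/-- test functions -/
noncomputable def tg (m : ℕ) : (Option (Fin (m + 1)) → ℝ) → ℝ :=
  fun x => if 1 ≤ x (some (Fin.last m)) then 1 else 0

lemma tf_meas (m : ℕ) : Measurable (tf m) := by
  unfold tf
  exact Measurable.ite (measurableSet_le measurable_const (measurable_pi_apply _)) measurable_const
    measurable_const

lemma tg_meas (m : ℕ) : Measurable (tg m) := by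
  unfold tg
  exact Measurable.ite (measurableSet_le measurable_const (measurable_pi_apply _)) measurable_const
    measurable_const

lemma tf_mono (m : ℕ) : Monotone (tf m) := by
  intro x y hxy
  have := hxy (some 0)
  unfold tf
  split_ifs with h1 h2 h2
  · exact le_rfl
  · exact absurd (h1.trans this) h2
  · exact zero_le_one
  · exact le_rfl

lemma tg_mono (m : ℕ) : Monotone (tg m) := by
  intro x y hxy
  have := hxy (some (Fin.last m))
  unfold tg
  split_ifs with h1 h2 h2
  · exact le_rfl
  · exact absurd (h1.trans this) h2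
  · exact zero_le_one
  · exact le_rfl

lemma measurable_family {m : ℕ} : Measurable (fun p : (Fin (m + 1) → ℝ) × ℝ => family p.1 p.2) := by
  rw [measurable_pi_iff]
  intro i
  rcases i with _ | i
  · simp only [family]; exact measurable_snd.neg
  · simp only [family]
    split_ifs
    · exact (measurable_pi_apply _).comp measurable_fst
    · exact ((measurable_pi_apply _).comp measurable_fst).sub
        ((measurable_pi_apply _).comp measurable_fst)

lemma value_f (m : ℕ) (j : ℕ) (t : ℝ) :
    tf m (family (afterArrival (st m j) 1) t) = if m ≤ j then 1 else 0 := by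
  have hm : (0 : ℝ) < (m : ℝ) + 1 := by positivity
  rw [after_st]
  simp only [tf, family, if_true]
  by_cases h : m ≤ j
  · rw [if_pos (show m + 1 ≤ ((0 : Fin (m + 1)) : ℕ) + 1 + j by simp; omega), if_pos h]
    rw [if_pos]
    simp
  · rw [if_neg (show ¬ (m + 1 ≤ ((0 : Fin (m + 1)) : ℕ) + 1 + j) by simp; omega), if_neg h]
    rw [if_neg]
    have : 0 < 1 / ((m : ℝ) + 1) := by positivity
    linarith

lemma value_g (m : ℕ) (hm1 : 1 ≤ m) (j : ℕ) (t : ℝ) :
    tg m (family (afterArrival (st m j) 1) t) = if m ≤ j then 0 else 1 := by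
  have hm : (0 : ℝ) < (m : ℝ) + 1 := by positivity
  have hl : Fin.last m ≠ 0 := by
    intro h
    have := congrArg Fin.val h
    simp at this
    omega
  rw [after_st]
  simp only [tg, family, if_neg hl, Fin.val_last]
  rw [if_pos (show m + 1 ≤ m + 1 + j by omega), div_self hm.ne']
  by_cases h : m ≤ j
  · rw [if_pos (show m + 1 ≤ ((0 : Fin (m + 1)) : ℕ) + 1 + j by simp; omega), if_pos h]
    rw [if_neg]
    have : 0 < 1 / ((m : ℝ) + 1) := by positivity
    simp
    positivity
  · rw [if_neg (show ¬ (m + 1 ≤ ((0 : Fin (m + 1)) : ℕ) + 1 + j) by simp; omega), if_neg h]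
    rw [if_pos]
    linarith

/-- **Answer to Q1: no, for every number `k = m + 1 ≥ 2` of servers.** There are a service law `μS`
and an interarrival law `μT` on `[0, ∞)` with finite positive means and `ρ < 1` and a stationary law
`π` of the workload vector, which is the law of `W_(n)` in the initially empty system for every
`n ≥ m` (so it is the limit law), such that in the stationary regime the family
`{V₁, V₂ - V₁, …, V_k - V₁, -T}` is not associated. -/
theorem result (m : ℕ) (hm : 1 ≤ m) :
    ∃ (μS μT : Measure ℝ) (π : Measure (Fin (m + 1) → ℝ)),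
      IsProbabilityMeasure μS ∧ IsProbabilityMeasure μT ∧ IsProbabilityMeasure π ∧
      (∀ᵐ s ∂μS, 0 ≤ s) ∧ (∀ᵐ t ∂μT, 0 ≤ t) ∧
      Integrable (fun s : ℝ => s ^ 2) μS ∧ Integrable (fun t : ℝ => t ^ 2) μT ∧
      Integrable (fun s : ℝ => s) μS ∧ Integrable (fun t : ℝ => t) μT ∧
      0 < ∫ s, s ∂μS ∧ 0 < ∫ t, t ∂μT ∧
      (∫ s, s ∂μS) / (((m + 1 : ℕ) : ℝ) * ∫ t, t ∂μT) < 1 ∧
      (∀ᵐ w ∂π, Monotone w ∧ ∀ i, 0 ≤ w i) ∧
      stepLaw μS μT π = π ∧
      (∀ n, m ≤ n → emptyLaw (m + 1) μS μT n = π) ∧
      ¬ Associated (π.prod (μS.prod μT))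
        (fun p : (Fin (m + 1) → ℝ) × ℝ × ℝ => family (afterArrival p.1 p.2.1) p.2.2) := by
  have hm0 : (0 : ℝ) < (m : ℝ) + 1 := by positivity
  have hP := statLaw_prob m
  have hint : ∀ f : ℝ → ℝ, Integrable f (lawT m) := by
    intro f
    unfold lawT
    refine Integrable.add_measure ?_ ?_
    · exact (integrable_dirac (by simp)).smul_measure (by simp)
    · exact (integrable_dirac (by simp)).smul_measure (by simp)
  have hval : ∫ t, t ∂(lawT m) = 2⁻¹ * (1 / ((m : ℝ) + 1)) + 2⁻¹ * 2 := by
    unfold lawT
    rw [integral_add_measure ((integrable_dirac (by simp)).smul_measure (by simp))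
      ((integrable_dirac (by simp)).smul_measure (by simp)), integral_smul_measure,
      integral_smul_measure, integral_dirac, integral_dirac]
    simp
  refine ⟨lawS, lawT m, statLaw m, inferInstance, inferInstance, hP, ?_, ?_, ?_, hint _, ?_,
    hint _, ?_, ?_, ?_, ?_, statLaw_inv m, fun n hn => emptyLaw_stable m n hn, ?_⟩
  · unfold lawS
    rw [ae_dirac_eq]
    simp
  · unfold lawT
    rw [ae_add_measure_iff]
    constructor
    · refine Measure.ae_smul_measure ?_ _
      rw [ae_dirac_eq]
      simp
      positivity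
    · refine Measure.ae_smul_measure ?_ _
      rw [ae_dirac_eq]
      simp
  · exact integrable_dirac (by simp)
  · exact integrable_dirac (by simp)
  · unfold lawS; simp
  · rw [hval]; positivity
  · rw [hval]
    unfold lawS
    rw [integral_dirac]
    push_cast
    rw [div_lt_one (by positivity)]
    have h1 : (m : ℝ) ≥ 1 := by exact_mod_cast hm
    field_simp
    nlinarith
  · filter_upwards [ae_statLaw m] with w hw
    obtain ⟨j, rfl⟩ := hw
    refine ⟨?_, ?_⟩
    · intro a b hab
      have hab' : (a : ℕ) ≤ (b : ℕ) := hab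
      simp only [st]
      by_cases h1 : m + 1 ≤ (a : ℕ) + j
      · rw [if_pos h1, if_pos (by omega)]
        have : (a : ℝ) ≤ (b : ℝ) := by exact_mod_cast hab'
        gcongr
      · rw [if_neg h1]
        split_ifs
        · positivity
        · exact le_rfl
    · intro i
      simp only [st]
      split_ifs
      · positivity
      · exact le_rfl
  · intro hassoc
    set P := (statLaw m).prod (lawS.prod (lawT m)) with hPdef
    have hX : Measurable (fun p : (Fin (m + 1) → ℝ) × ℝ × ℝ =>
        family (afterArrival p.1 p.2.1) p.2.2) := by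
      exact measurable_family.comp ((measurable_afterArrival.comp
        (measurable_fst.prodMk (measurable_fst.comp measurable_snd))).prodMk
          (measurable_snd.comp measurable_snd))
    set X := (fun p : (Fin (m + 1) → ℝ) × ℝ × ℝ => family (afterArrival p.1 p.2.1) p.2.2) with hXdef
    have hbf : ∀ x, |tf m x| ≤ 1 := by intro x; unfold tf; split_ifs <;> simp
    have hbg : ∀ x, |tg m x| ≤ 1 := by intro x; unfold tg; split_ifs <;> simp
    have hcov := hassoc (tf m) (tg m) (tf_meas m) (tg_meas m) (tf_mono m) (tg_mono m) ⟨1, hbf⟩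
      ⟨1, hbg⟩
    have hLf : MemLp (fun p => tf m (X p)) 2 P :=
      MemLp.of_bound ((tf_meas m).comp hX).aestronglyMeasurable 1
        (Filter.Eventually.of_forall fun p => hbf _)
    have hLg : MemLp (fun p => tg m (X p)) 2 P :=
      MemLp.of_bound ((tg_meas m).comp hX).aestronglyMeasurable 1
        (Filter.Eventually.of_forall fun p => hbg _)
    rw [covariance_eq_sub hLf hLg] at hcov
    have hae : ∀ᵐ p ∂P, ∃ j t, p = (st m j, (1 : ℝ), t) := by
      have h1 : ∀ᵐ p ∂P, ∃ j, p.1 = st m j :=
        Measure.quasiMeasurePreserving_fst.ae (ae_statLaw m)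
      have h2 : ∀ᵐ q ∂(lawS.prod (lawT m)), q.1 = 1 :=
        Measure.quasiMeasurePreserving_fst.ae
          (show ∀ᵐ s ∂lawS, s = 1 by unfold lawS; rw [ae_dirac_eq]; simp)
      have h3 : ∀ᵐ p ∂P, p.2.1 = 1 := Measure.quasiMeasurePreserving_snd.ae h2
      filter_upwards [h1, h3] with p hp1 hp3
      obtain ⟨j, hj⟩ := hp1
      exact ⟨j, p.2.2, by rw [← hj, ← hp3]⟩
    have hzero : ∫ p, ((fun p => tf m (X p)) * fun p => tg m (X p)) p ∂P = 0 := by
      apply integral_eq_zero_of_ae
      filter_upwards [hae] with p hp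
      obtain ⟨j, t, rfl⟩ := hp
      simp only [Pi.mul_apply, hXdef, value_f, value_g m hm, Pi.zero_apply]
      split_ifs <;> simp
    have hpos : ∀ (f : (Option (Fin (m + 1)) → ℝ) → ℝ) (j : ℕ), Measurable f → (∀ x, 0 ≤ f x) →
        (∀ x, |f x| ≤ 1) →
        (∀ t, f (family (afterArrival (st m j) 1) t) = 1) → 0 < statLaw m {st m j} →
        0 < ∫ p, f (X p) ∂P := by
      intro f j hfm hf0 hf1 hfj hj
      have hfi : Integrable (fun p => f (X p)) P :=
        Integrable.of_bound (hfm.comp hX).aestronglyMeasurable 1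
          (Filter.Eventually.of_forall fun p => hf1 _)
      rw [integral_pos_iff_support_of_nonneg (fun p => hf0 _) hfi]
      refine lt_of_lt_of_le ?_ (measure_mono
        (show ({st m j} : Set (Fin (m + 1) → ℝ)) ×ˢ (({1} : Set ℝ) ×ˢ (Set.univ : Set ℝ)) ⊆
          Function.support (fun p => f (X p)) from ?_))
      · rw [hPdef, Measure.prod_prod, Measure.prod_prod]
        simp only [measure_univ, mul_one]
        refine ENNReal.mul_pos hj.ne' ?_
        unfold lawS
        rw [Measure.dirac_apply' _ (measurableSet_singleton _)]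
        simp
      · rintro ⟨w, s, t⟩ ⟨h1, h2, -⟩
        simp only [Set.mem_singleton_iff] at h1 h2
        subst h1; subst h2
        simp only [Function.mem_support, hXdef]
        rw [hfj]
        exact one_ne_zero
    have h1 := hpos (tf m) m (tf_meas m) (fun x => by unfold tf; split_ifs <;> simp) hbf
      (fun t => by rw [value_f]; simp) (statLaw_last m)
    have h2 := hpos (tg m) 0 (tg_meas m) (fun x => by unfold tg; split_ifs <;> simp) hbg
      (fun t => by rw [value_g m hm, if_neg (by omega)]) (statLaw_single m 0 (by omega))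
    rw [hzero] at hcov
    have := mul_pos h1 h2
    linarith

end Pool.Agent.Results.MP_d464c7_pr.NotAssociated
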